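import Pool.Agent.Helper59.MB.Goals1

/-!
# Project MB (MP_49a1ce_an), packet LOC: locality of the tests
-/

set_option autoImplicit false

namespace Pool.Agent.Helper14.MB

open Pool.Agent.Helper59.MB

theorem P_pos (s : ℕ → ℕ) (k : ℕ) : 0 < P s k := by unfold P; positivity

theorem P_dvd {s : ℕ → ℕ} (hs : StrictMono s) {l k : ℕ} (h : l ≤ k) : P s l ∣ P s k :=
  pow_dvd_pow 2 (hs.monotone h)

theorem shift_mod {s : ℕ → ℕ} (hs : StrictMono s) {l k : ℕ} (h : l ≤ k) (q i : ℕ) :
    (P s k * q + i) % P s l = i % P s l := by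
  obtain ⟨d, hd⟩ := P_dvd hs h
  rw [hd, mul_assoc, Nat.mul_add_mod]

theorem same_block {p i L a : ℕ} (hp : 0 < p) (h1 : L ≤ i % p) (h2 : i % p + L < p)
    (ha : a < 2 * L + 1) : (i - L + a) / p = i / p := by
  have h3 := Nat.div_add_mod i p
  have h4 : i - L + a = p * (i / p) + (i % p - L + a) := by omega
  have h5 : (p * (i / p) + (i % p - L + a)) / p = i / p + (i % p - L + a) / p :=
    Nat.mul_add_div hp _ _
  have h6 : (i % p - L + a) / p = 0 := Nat.div_eq_of_lt (by omega)
  rw [h4, h5, h6, add_zero]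

theorem ite_eq' {p q : Prop} {hp : Decidable p} {hq : Decidable q} (h : p ↔ q) :
    (if p then (1 : ℝ) else 0) = if q then 1 else 0 := if_congr h rfl rfl

theorem t_LOC : S_LOC := by
  intro s hs
  refine ⟨?_, ?_, ?_⟩
  · intro l i w w' hw
    unfold ev
    apply ite_eq'
    constructor
    · rintro ⟨h1, h2, h3, h4, h5⟩
      refine ⟨h1, h2, h3, h4, fun a ha j hj => ?_⟩
      rw [← hw _ (same_block (P_pos s l) h2 h3 ha) j (hj.trans_le h1)]
      exact h5 a ha j hj
    · rintro ⟨h1, h2, h3, h4, h5⟩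
      refine ⟨h1, h2, h3, h4, fun a ha j hj => ?_⟩
      rw [hw _ (same_block (P_pos s l) h2 h3 ha) j (hj.trans_le h1)]
      exact h5 a ha j hj
  · intro l k q i w hlk
    unfold ev
    apply ite_eq'
    rw [shift_mod hs hlk]
    have key : ∀ L a : ℕ, L ≤ i % P s l →
        from' (P s k * q) w (i - L + a) = w (P s k * q + i - L + a) := by
      intro L a hL
      have h1 : i % P s l ≤ i := Nat.mod_le _ _
      unfold from'
      congr 1
      omega
    constructor
    · rintro ⟨h1, h2, h3, h4, h5⟩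
      refine ⟨h1, h2, h3, ?_, fun a ha j hj => ?_⟩
      · rw [shift_mod hs (h1.trans hlk)]
        exact h4
      · rw [← key _ a h2]
        exact h5 a ha j hj
    · rintro ⟨h1, h2, h3, h4, h5⟩
      rw [shift_mod hs (h1.trans hlk)] at h4
      refine ⟨h1, h2, h3, h4, fun a ha j hj => ?_⟩
      rw [key _ a h2]
      exact h5 a ha j hj
  · intro l i w
    unfold ev
    split_ifs
    · norm_num
    · norm_num

end Pool.Agent.Helper14.MB
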