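import Pool.Agent.Helper59.MB.Goals3

/-!
# Project MB (MP_49a1ce_an), packet UEE: unique ergodicity implies ergodicity
-/

set_option autoImplicit false

namespace Pool.Agent.Helper14.MB

open Pool.Agent.Helper59.MB MeasureTheory
open scoped ENNReal

theorem t_UEE : S_UEE := by
  intro Y _ T ν hν
  obtain ⟨h1, h2, h3⟩ := hν
  apply Ergodic.of_mem_extremePoints
  rw [mem_extremePoints_iff_left]
  refine ⟨⟨h2, h1⟩, ?_⟩
  rintro ν₁ ⟨hν₁, hp₁⟩ ν₂ _ _
  exact h3 ν₁ hp₁ hν₁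

end Pool.Agent.Helper14.MB
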