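import Pool.Agent.Helper50.MB.Goals2

/-!
# Project MB, packet UPP: from the bound for the tails to a pointwise bound
-/

set_option autoImplicit false

namespace Pool.Agent.Helper14.MB

open Finset

section

variable {L : ℕ → ℝ} {ℓ D : ℝ}

theorem bB (L : ℕ → ℝ) (ℓ : ℝ) (n : ℕ) (hn : 1 ≤ n) :
    Real.exp (L (n - 1) - ((n - 1 : ℕ) : ℝ) * ℓ) =
      Real.exp ℓ * Real.exp (L (n - 1) - L n) * Real.exp (L n - n * ℓ) := by
  rw [← Real.exp_add, ← Real.exp_add]
  congr 1
  push_cast [Nat.cast_sub hn]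
  ring

/-- `(n + k) ψ (n + k) ≤ n ψ n + k`. -/
theorem hit (h1 : ∀ n : ℕ, 1 ≤ n → ((n : ℝ) + 1) * Real.exp (L n - L (n + 1)) ≤
      n * Real.exp (L (n - 1) - L n) + 1) (n : ℕ) (hn : 1 ≤ n) (k : ℕ) :
    ((n : ℝ) + k) * Real.exp (L (n + k - 1) - L (n + k)) ≤
      n * Real.exp (L (n - 1) - L n) + k := by
  induction k with
  | zero => simp
  | succ k ih =>
    have h2 := h1 (n + k) (by omega)
    have e1 : n + (k + 1) - 1 = n + k := by omega
    have e2 : n + (k + 1) = n + k + 1 := by omega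
    rw [e1, e2]
    push_cast at h2 ⊢
    linarith

/-- Case 1. -/
theorem case1 (h1 : ∀ n : ℕ, 1 ≤ n → ((n : ℝ) + 1) * Real.exp (L n - L (n + 1)) ≤
      n * Real.exp (L (n - 1) - L n) + 1) {n : ℕ} (hn : 1 ≤ n) {ν : ℝ} (hν : Real.exp ℓ ≤ ν)
    (hψ : 1 ≤ Real.exp ℓ * Real.exp (L (n - 1) - L n)) {K : ℕ} (hK : 2 * K ≤ n)
    (hK2 : 2 * ν * K ≤ n) (k : ℕ) (hk : k ≤ K) :
    Real.exp (L n - n * ℓ) * (1 - ν * k * (k + 1) / n) ≤
      Real.exp (L (n - k) - ((n - k : ℕ) : ℝ) * ℓ) := by
  have hn0 : (0 : ℝ) < n := by exact_mod_cast hn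
  have hν0 : 0 < ν := (Real.exp_pos ℓ).trans_le hν
  have hB : 0 < Real.exp (L n - n * ℓ) := Real.exp_pos _
  -- the stronger form
  have key : ∀ k : ℕ, k ≤ K → Real.exp (L n - n * ℓ) * (1 - ν * k * (k - 1) / n) ≤
      Real.exp (L (n - k) - ((n - k : ℕ) : ℝ) * ℓ) := by
    intro k
    induction k with
    | zero => intro _; simp
    | succ k ih =>
      intro hk
      have hk' : k ≤ K := by omega
      have ih' := ih hk'
      have hnk : 1 ≤ n - k := by omega
      have e1 : n - (k + 1) = n - k - 1 := by omega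
      rw [e1, bB L ℓ (n - k) hnk]
      have h2 := hit h1 (n - k) hnk k
      have e2 : n - k + k = n := by omega
      rw [e2] at h2
      have e3 : ((n - k : ℕ) : ℝ) = (n : ℝ) - k := by
        rw [Nat.cast_sub (by omega)]
      rw [e3] at h2
      have hkn : (0 : ℝ) < (n : ℝ) - k := by
        rw [← e3]
        exact_mod_cast hnk
      have hkr : (k : ℝ) ≤ K := by exact_mod_cast hk'
      have hKr : 2 * (K : ℝ) ≤ n := by exact_mod_cast hK
      have hk0 : (0 : ℝ) ≤ k := Nat.cast_nonneg k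
      have e4 : (n : ℝ) - k + k = n := by ring
      rw [e4] at h2
      set ψ := Real.exp (L (n - 1) - L n) with hψd
      set ψk := Real.exp (L (n - k - 1) - L (n - k)) with hψk
      have hψk0 : 0 < ψk := Real.exp_pos _
      have hψ0 : 0 < ψ := Real.exp_pos _
      have hμ0 := Real.exp_pos ℓ
      -- lower bound for `μ ψk`
      have h3 : 1 - 2 * ν * k / n ≤ Real.exp ℓ * ψk := by
        have h4 : Real.exp ℓ * (n * ψ) ≤ Real.exp ℓ * (((n : ℝ) - k) * ψk + k) :=
          mul_le_mul_of_nonneg_left h2 hμ0.le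
        have h5 : (n : ℝ) ≤ Real.exp ℓ * (n * ψ) := by nlinarith
        have h6 : (n : ℝ) ≤ ((n : ℝ) - k) * (Real.exp ℓ * ψk) + Real.exp ℓ * k := by
          nlinarith
        have h7 : Real.exp ℓ * k ≤ ν * k := mul_le_mul_of_nonneg_right hν hk0
        -- `(n - k) * (μ ψk) ≥ n - ν k`
        have h8 : (n : ℝ) - ν * k ≤ ((n : ℝ) - k) * (Real.exp ℓ * ψk) := by linarith
        have h9 : ((n : ℝ) - k) * (1 - 2 * ν * k / n) ≤ (n : ℝ) - ν * k := by
          have e5 : ((n : ℝ) - k) * (1 - 2 * ν * k / n) =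
              n - k - (2 * ν * k) * (((n : ℝ) - k) / n) := by
            field_simp
          rw [e5]
          have h10 : (1 : ℝ) / 2 ≤ ((n : ℝ) - k) / n := by
            rw [div_le_div_iff₀ (by norm_num) hn0]
            linarith
          have h11 : 0 ≤ 2 * ν * k := by positivity
          nlinarith
        exact le_of_mul_le_mul_left (h9.trans h8) hkn
      have hlow : 0 ≤ 1 - 2 * ν * k / n := by
        rw [sub_nonneg, div_le_one hn0]
        calc 2 * ν * (k : ℝ) ≤ 2 * ν * K := by
              apply mul_le_mul_of_nonneg_left hkr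
              positivity
          _ ≤ n := hK2
      have h12 : Real.exp (L n - n * ℓ) * (1 - ν * ((k + 1 : ℕ) : ℝ) * (((k + 1 : ℕ) : ℝ) - 1) / n) ≤
          (1 - 2 * ν * k / n) * (Real.exp (L n - n * ℓ) * (1 - ν * k * (k - 1) / n)) := by
        have e6 : (1 - 2 * ν * k / n) * (Real.exp (L n - n * ℓ) * (1 - ν * k * (k - 1) / n)) =
            Real.exp (L n - n * ℓ) * (1 - ν * ((k + 1 : ℕ) : ℝ) * (((k + 1 : ℕ) : ℝ) - 1) / n) +
            Real.exp (L n - n * ℓ) * ((2 * ν * k / n) * (ν * (k * (k - 1)) / n)) := by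
          push_cast
          field_simp
          ring
        rw [e6]
        have h13 : 0 ≤ (k : ℝ) * (k - 1) := by
          rcases Nat.eq_zero_or_pos k with h0 | h0
          · rw [h0]; simp
          · have : (1 : ℝ) ≤ k := by exact_mod_cast h0
            exact mul_nonneg hk0 (by linarith)
        have h14 : 0 ≤ Real.exp (L n - n * ℓ) * ((2 * ν * k / n) * (ν * (k * (k - 1)) / n)) := by
          positivity
        linarith
      refine h12.trans ?_
      refine (mul_le_mul_of_nonneg_left ih' hlow).trans ?_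
      exact mul_le_mul_of_nonneg_right h3 (Real.exp_pos _).le
  refine le_trans ?_ (key k hk)
  apply mul_le_mul_of_nonneg_left _ hB.le
  have hk0 : (0 : ℝ) ≤ k := Nat.cast_nonneg k
  have h15 : ν * k * ((k : ℝ) - 1) / n ≤ ν * k * ((k : ℝ) + 1) / n := by
    apply div_le_div_of_nonneg_right _ hn0.le
    apply mul_le_mul_of_nonneg_left _ (by positivity)
    linarith
  linarith

/-- Case 2. -/
theorem case2 (h1 : ∀ n : ℕ, 1 ≤ n → ((n : ℝ) + 1) * Real.exp (L n - L (n + 1)) ≤
      n * Real.exp (L (n - 1) - L n) + 1) {n : ℕ} (hn : 1 ≤ n) {ν : ℝ} (hν : Real.exp ℓ ≤ ν)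
    (hψ : Real.exp ℓ * Real.exp (L (n - 1) - L n) ≤ 1) (k : ℕ) :
    (∀ j : ℕ, j ≤ k → ν * j ≤ n) →
    Real.exp (L n - n * ℓ) * (1 - ν * k * (k + 1) / n) ≤
      Real.exp (L (n + k) - ((n + k : ℕ) : ℝ) * ℓ) := by
  have hn0 : (0 : ℝ) < n := by exact_mod_cast hn
  have hν0 : 0 < ν := (Real.exp_pos ℓ).trans_le hν
  have hB : 0 < Real.exp (L n - n * ℓ) := Real.exp_pos _
  induction k with
  | zero => intro _; simp
  | succ k ih =>
    intro hj
    have ih' := ih fun j hjk => hj j (by omega)
    have hk0 : (0 : ℝ) ≤ k := Nat.cast_nonneg k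
    have h2 := hit h1 n hn (k + 1)
    have e1 : n + (k + 1) - 1 = n + k := by omega
    have hb := bB L ℓ (n + (k + 1)) (by omega)
    rw [e1] at h2 hb
    set ψ := Real.exp (L (n - 1) - L n) with hψd
    set ψk := Real.exp (L (n + k) - L (n + (k + 1))) with hψk
    set Bk := Real.exp (L (n + (k + 1)) - ((n + (k + 1) : ℕ) : ℝ) * ℓ) with hBk
    have hBk0 : 0 < Bk := Real.exp_pos _
    have hψk0 : 0 < ψk := Real.exp_pos _
    have hμ0 := Real.exp_pos ℓ
    -- upper bound for `μ ψk`
    have h3 : Real.exp ℓ * ψk ≤ 1 + ν * (k + 1) / n := by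
      have h4 : Real.exp ℓ * (((n : ℝ) + ((k + 1 : ℕ) : ℝ)) * ψk) ≤
          Real.exp ℓ * (n * ψ + ((k + 1 : ℕ) : ℝ)) := mul_le_mul_of_nonneg_left h2 hμ0.le
      push_cast at h4
      have h5 : Real.exp ℓ * (n * ψ) ≤ n := by nlinarith
      have h7 : Real.exp ℓ * ((k : ℝ) + 1) ≤ ν * (k + 1) :=
        mul_le_mul_of_nonneg_right hν (by linarith)
      have h8 : (n : ℝ) * (Real.exp ℓ * ψk) ≤ n + ν * (k + 1) := by
        have h9 : 0 ≤ ((k : ℝ) + 1) * (Real.exp ℓ * ψk) := by positivity
        nlinarith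
      have h10 : (n : ℝ) * (1 + ν * (k + 1) / n) = n + ν * (k + 1) := by
        field_simp
      rw [← h10] at h8
      exact le_of_mul_le_mul_left h8 hn0
    set x : ℝ := ν * (k + 1) / n with hx
    have hx0 : 0 ≤ x := by rw [hx]; positivity
    have hx1 : x ≤ 1 := by
      rw [hx, div_le_one hn0]
      have := hj (k + 1) le_rfl
      push_cast at this
      exact this
    -- `B (n+k) (1 - x) ≤ B (n+k+1)`
    have h11 : Real.exp (L (n + k) - ((n + k : ℕ) : ℝ) * ℓ) * (1 - x) ≤ Bk := by
      rw [hb]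
      have h12 : Real.exp ℓ * ψk * Bk * (1 - x) ≤ (1 + x) * Bk * (1 - x) := by
        apply mul_le_mul_of_nonneg_right _ (by linarith)
        exact mul_le_mul_of_nonneg_right h3 hBk0.le
      have h13 : (1 + x) * Bk * (1 - x) ≤ Bk := by nlinarith [mul_nonneg hBk0.le (mul_nonneg hx0 hx0)]
      exact h12.trans h13
    refine le_trans ?_ h11
    refine le_trans ?_ (mul_le_mul_of_nonneg_right ih' (by linarith : 0 ≤ 1 - x))
    rw [mul_assoc (Real.exp (L n - n * ℓ)) (1 - ν * k * (k + 1) / n) (1 - x)]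
    apply mul_le_mul_of_nonneg_left _ hB.le
    have e7 : ν * ((k + 1 : ℕ) : ℝ) * (((k + 1 : ℕ) : ℝ) + 1) / n = ν * k * (k + 1) / n + 2 * x := by
      rw [hx]
      push_cast
      field_simp
      ring
    rw [e7]
    have h16 : 0 ≤ ν * k * (k + 1) / n := by positivity
    nlinarith [mul_nonneg h16 hx0]

end

theorem goalUPP : Pool.Agent.Helper50.MB.UPP := by
  intro L ℓ D h1 h2
  set ν : ℝ := max (Real.exp ℓ) 1 with hν
  have hν1 : 1 ≤ ν := le_max_right _ _
  have hνe : Real.exp ℓ ≤ ν := le_max_left _ _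
  have hν0 : 0 < ν := by linarith
  have hD0 : 0 ≤ D := by
    have h3 := h2 1 1 le_rfl
    simpa using h3
  refine ⟨16 * ν ^ 2 * D + 32 * ν * D + 1, by positivity, fun n hn => ?_⟩
  have hn0 : (0 : ℝ) < n := by exact_mod_cast hn
  have hn1 : (1 : ℝ) ≤ n := by exact_mod_cast hn
  set s : ℝ := Real.sqrt n with hs
  have hs2 : s * s = n := Real.mul_self_sqrt hn0.le
  have hs0 : 0 < s := Real.sqrt_pos.2 hn0
  have hs1 : 1 ≤ s := by
    rw [hs, Real.one_le_sqrt]
    exact hn1
  set B : ℝ := Real.exp (L n - n * ℓ) with hB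
  have hB0 : 0 < B := Real.exp_pos _
  rw [le_div_iff₀ hn0]
  by_cases hsm : s < 4 * ν
  · -- small `n`
    have h3 := h2 1 (n + 1) le_rfl
    have h4 : B ≤ ∑ j ∈ Ico 1 (n + 1), Real.exp (L j - j * ℓ) := by
      apply single_le_sum (f := fun j : ℕ => Real.exp (L j - j * ℓ))
        (fun j _ => (Real.exp_pos _).le)
      rw [mem_Ico]
      omega
    rw [Nat.cast_one, Real.sqrt_one, div_one] at h3
    have h5 : B ≤ D := h4.trans h3
    have h6 : (n : ℝ) ≤ 16 * ν ^ 2 := by
      rw [← hs2]
      nlinarith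
    have h7 : B * n ≤ D * (16 * ν ^ 2) := by
      apply mul_le_mul h5 h6 hn0.le hD0
    nlinarith [mul_nonneg hν0.le hD0]
  · push Not at hsm
    -- the length `K`
    set K : ℕ := ⌊s / (4 * ν)⌋₊ with hK
    have hx1 : 1 ≤ s / (4 * ν) := by
      rw [le_div_iff₀ (by positivity)]
      linarith
    have hK1 : 1 ≤ K := by
      rw [hK]
      exact Nat.le_floor (by simpa using hx1)
    have hKle : (K : ℝ) ≤ s / (4 * ν) := Nat.floor_le (by positivity)
    have hKlt : s / (4 * ν) < K + 1 := Nat.lt_floor_add_one _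
    have hK1r : (1 : ℝ) ≤ K := by exact_mod_cast hK1
    have hKs : 4 * ν * K ≤ s := by
      rw [le_div_iff₀ (by positivity)] at hKle
      linarith
    have hKs' : s ≤ 8 * ν * K := by
      rw [div_lt_iff₀ (by positivity)] at hKlt
      nlinarith
    have hsn : s ≤ n := by
      rw [← hs2]
      nlinarith
    have hK4 : 4 * (K : ℝ) ≤ n := by
      have : 4 * (K : ℝ) ≤ 4 * ν * K := by nlinarith
      linarith
    have hK4' : 4 * K ≤ n := by exact_mod_cast hK4
    have hνK : 2 * ν * K ≤ n := by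
      have : 2 * ν * (K : ℝ) ≤ 4 * ν * K := by nlinarith [mul_pos hν0 (by linarith : (0 : ℝ) < K)]
      linarith
    have hKK : ∀ k : ℕ, k ≤ K → (1 : ℝ) / 2 ≤ 1 - ν * k * (k + 1) / n := by
      intro k hk
      have hkr : (k : ℝ) ≤ K := by exact_mod_cast hk
      have hk0 : (0 : ℝ) ≤ k := Nat.cast_nonneg k
      have h3 : ν * k * (k + 1) / n ≤ 1 / 2 := by
        rw [div_le_div_iff₀ hn0 (by norm_num)]
        have h4 : ν * k * (k + 1) ≤ ν * K * (K + K) := by
          apply mul_le_mul _ (by linarith) (by linarith) (by positivity)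
          exact mul_le_mul_of_nonneg_left hkr hν0.le
        have h5 : (4 * ν * K) * (4 * ν * K) ≤ s * s := by
          apply mul_le_mul hKs hKs (by positivity) hs0.le
        rw [hs2] at h5
        have h6 : ν * K * (K + K) * 2 ≤ (4 * ν * K) * (4 * ν * K) := by
          have : 0 ≤ ν * (K : ℝ) * K := by positivity
          nlinarith
        nlinarith
      linarith
    -- it is enough to bound `K B`
    have hfin : (K : ℝ) * B / 2 ≤ 2 * D / s → B * n ≤ 16 * ν ^ 2 * D + 32 * ν * D + 1 := by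
      intro h
      rw [div_le_div_iff₀ (by norm_num) hs0] at h
      have h3 : B * n ≤ 32 * ν * D := by
        rw [← hs2]
        calc B * (s * s) = (B * s) * s := by ring
          _ ≤ (B * s) * (8 * ν * K) := mul_le_mul_of_nonneg_left hKs' (by positivity)
          _ = 8 * ν * (K * B * s) := by ring
          _ ≤ 8 * ν * (2 * D * 2) := mul_le_mul_of_nonneg_left h (by positivity)
          _ = 32 * ν * D := by ring
      nlinarith [mul_nonneg (sq_nonneg ν) hD0]
    apply hfin
    rcases le_total 1 (Real.exp ℓ * Real.exp (L (n - 1) - L n)) with hψ | hψ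
    · -- case 1
      have h3 := h2 (n - K) n (by omega)
      have h4 : (K : ℝ) * (B / 2) ≤ ∑ j ∈ Ico (n - K) n, Real.exp (L j - j * ℓ) := by
        have hc : (Ico (n - K) n).card = K := by
          rw [Nat.card_Ico]
          omega
        rw [← nsmul_eq_mul]
        conv_lhs => rw [← hc]
        apply card_nsmul_le_sum
        intro j hj
        rw [mem_Ico] at hj
        have h5 := case1 h1 hn hνe hψ (by omega : 2 * K ≤ n) hνK (n - j) (by omega)
        have e1 : n - (n - j) = j := by omega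
        rw [e1] at h5
        refine le_trans ?_ h5
        have h6 := hKK (n - j) (by omega)
        calc B / 2 = B * (1 / 2) := by ring
          _ ≤ _ := mul_le_mul_of_nonneg_left h6 hB0.le
      have h7 : D / Real.sqrt ((n - K : ℕ) : ℝ) ≤ 2 * D / s := by
        have h8 : s / 2 ≤ Real.sqrt ((n - K : ℕ) : ℝ) := by
          apply Real.le_sqrt_of_sq_le
          rw [Nat.cast_sub (by omega)]
          have : (s / 2) ^ 2 = n / 4 := by
            rw [div_pow, sq, hs2]
            norm_num
          rw [this]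
          linarith
        calc D / Real.sqrt ((n - K : ℕ) : ℝ) ≤ D / (s / 2) :=
              div_le_div_of_nonneg_left hD0 (by positivity) h8
          _ = 2 * D / s := by
              field_simp
      calc (K : ℝ) * B / 2 = K * (B / 2) := by ring
        _ ≤ _ := h4
        _ ≤ _ := h3
        _ ≤ _ := h7
    · -- case 2
      have h3 := h2 n (n + K) hn
      have h4 : (K : ℝ) * (B / 2) ≤ ∑ j ∈ Ico n (n + K), Real.exp (L j - j * ℓ) := by
        have hc : (Ico n (n + K)).card = K := by
          rw [Nat.card_Ico]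
          omega
        rw [← nsmul_eq_mul]
        conv_lhs => rw [← hc]
        apply card_nsmul_le_sum
        intro j hj
        rw [mem_Ico] at hj
        have h5 := case2 h1 hn hνe hψ (j - n) (by
          intro i hi
          have hiK : (i : ℝ) ≤ K := by
            have : i ≤ K := by omega
            exact_mod_cast this
          have : ν * (i : ℝ) ≤ 2 * ν * K := by nlinarith [Nat.cast_nonneg (α := ℝ) i]
          linarith)
        have e1 : n + (j - n) = j := by omega
        rw [e1] at h5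
        refine le_trans ?_ h5
        have h6 := hKK (j - n) (by omega)
        calc B / 2 = B * (1 / 2) := by ring
          _ ≤ _ := mul_le_mul_of_nonneg_left h6 hB0.le
      have h7 : D / Real.sqrt (n : ℝ) ≤ 2 * D / s := by
        apply div_le_div_of_nonneg_right _ hs0.le
        linarith
      calc (K : ℝ) * B / 2 = K * (B / 2) := by ring
        _ ≤ _ := h4
        _ ≤ _ := h3
        _ ≤ _ := h7

end Pool.Agent.Helper14.MB
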