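import Pool.Agent.Helper59.MB.Goals4

/-!
# Project MB, VIS: frequency of the visits to a closed set
-/

set_option autoImplicit false

open MeasureTheory Filter Topology Finset

namespace Pool.Agent.Helper14.MB

open Pool.Agent.Helper59.MB
open scoped ENNReal NNReal

theorem t_VIS (hUEC : S_UEC) : S_VIS := by
  intro Y _ _ _ _ T ν hT hν S η hS hη
  have hpr : IsProbabilityMeasure ν := hν.1
  have hη0 : 0 < η := lt_of_le_of_lt measureReal_nonneg hη
  -- a thickened indicator with small integral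
  have hpos : ∀ n : ℕ, (0 : ℝ) < 1 / ((n : ℝ) + 1) := fun n => Nat.one_div_pos_of_nat
  have hlim := tendsto_lintegral_thickenedIndicator_of_isClosed ν hS hpos
    tendsto_one_div_add_atTop_nhds_zero_nat
  have hlt : ν S < ENNReal.ofReal η := by
    rw [← ENNReal.ofReal_toReal (measure_ne_top ν S)]
    exact (ENNReal.ofReal_lt_ofReal_iff hη0).mpr hη
  obtain ⟨k, hk⟩ := (hlim.eventually_lt_const hlt).exists
  set G := thickenedIndicator (hpos k) S with hG
  have hint : ∫ y, ((G y : ℝ≥0) : ℝ) ∂ν < η := by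
    rw [← BoundedContinuousFunction.toReal_lintegral_coe_eq_integral]
    have h1 := (ENNReal.toReal_lt_toReal (ne_top_of_lt hk) ENNReal.ofReal_ne_top).mpr hk
    rwa [ENNReal.toReal_ofReal hη0.le] at h1
  let g : C(Y, ℝ) := ⟨fun y => ((G y : ℝ≥0) : ℝ), by fun_prop⟩
  obtain ⟨N₀, hN₀⟩ := hUEC Y T ν hT hν g (η - ∫ y, g y ∂ν) (sub_pos.mpr hint)
  refine ⟨N₀, fun N hN x => ?_⟩
  have h1 := (abs_le.mp (hN₀ N hN x)).2
  have h2 : ((Set.ncard {n : ℕ | n ∈ Icc 1 N ∧ T^[n] x ∈ S} : ℕ) : ℝ) ≤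
      ∑ n ∈ Icc 1 N, g (T^[n] x) := by
    classical
    have h3 : {n : ℕ | n ∈ Icc 1 N ∧ T^[n] x ∈ S} =
        (((Icc 1 N).filter fun n => T^[n] x ∈ S : Finset ℕ) : Set ℕ) := by
      ext n
      simp
    rw [h3, Set.ncard_coe_finset, Finset.card_filter]
    push_cast
    refine Finset.sum_le_sum fun n _ => ?_
    by_cases h4 : T^[n] x ∈ S
    · rw [if_pos h4]
      have h5 : G (T^[n] x) = 1 := thickenedIndicator_one (hpos k) S h4
      change (1 : ℝ) ≤ ((G (T^[n] x) : ℝ≥0) : ℝ)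
      rw [h5]
      simp
    · rw [if_neg h4]
      exact NNReal.coe_nonneg _
  linarith

end Pool.Agent.Helper14.MB
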